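import Pool.Agent.helper96.PP2.SpecA

/-!
# pg:EUL: the Euler characteristic inequality
-/

set_option autoImplicit false

namespace Pool.Agent.PP2

theorem EUL_arith {p cA cA' h0A h0A' h1A h1A' h2A h2A' r s a b : ℕ}
    (hc : cA = p * cA') (hE2 : h2A * s = b * h2A')
    (hE1 : h1A * (p * h0A') = r * h1A' * h0A) (hrs : r * s = a) (hab : a ≤ b)
    (hs : 0 < s) (h0 : 0 < h0A') (hI : cA' * h1A' ≤ h0A' * h2A') :
    cA * h1A ≤ h0A * h2A := by
  have hpos : 0 < s * h0A' := Nat.mul_pos hs h0
  refine Nat.le_of_mul_le_mul_right ?_ hpos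
  calc cA * h1A * (s * h0A') = cA' * s * (h1A * (p * h0A')) := by rw [hc]; ring
    _ = cA' * s * (r * h1A' * h0A) := by rw [hE1]
    _ = (r * s) * (cA' * h1A' * h0A) := by ring
    _ = a * (cA' * h1A' * h0A) := by rw [hrs]
    _ ≤ b * (cA' * h1A' * h0A) := Nat.mul_le_mul_right _ hab
    _ = b * h0A * (cA' * h1A') := by ring
    _ ≤ b * h0A * (h0A' * h2A') := Nat.mul_le_mul_left _ hI
    _ = h0A * h0A' * (b * h2A') := by ring
    _ = h0A * h0A' * (h2A * s) := by rw [hE2]
    _ = h0A * h2A * (s * h0A') := by ring

theorem EUL_pow (p : ℕ) (hp : p.Prime) (A : Type) [AddCommGroup A] [Finite A]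
    (h : ∀ a : A, p • a = 0) : ∃ k : ℕ, Nat.card A = p ^ k := by
  have : Fact p.Prime := ⟨hp⟩
  have h1 : IsPGroup p (Multiplicative A) := by
    intro g
    refine ⟨1, ?_⟩
    rw [pow_one]
    have h2 := h (Multiplicative.toAdd g)
    exact h2
  obtain ⟨k, hk⟩ := (IsPGroup.iff_card (p := p) (G := Multiplicative A)).mp h1
  exact ⟨k, hk⟩

theorem EUL_card (p : ℕ) (A' A : Type) [AddCommGroup A'] [AddCommGroup A]
    (i : A' →+ A) (φ : A →+ Fp p) (hi : Function.Injective i) (hφ : Function.Surjective φ)
    (hex : ∀ a : A, φ a = 0 ↔ ∃ a' : A', i a' = a) : Nat.card A = p * Nat.card A' := by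
  have h1 := AddSubgroup.card_eq_card_quotient_mul_card_addSubgroup φ.ker
  have h2 : Nat.card (A ⧸ φ.ker) = p := by
    rw [Nat.card_congr (QuotientAddGroup.quotientKerEquivOfSurjective φ hφ).toEquiv]
    exact Nat.card_zmod p
  have h3 : φ.ker = i.range := by
    ext a
    rw [AddMonoidHom.mem_ker, AddMonoidHom.mem_range]
    exact hex a
  have h4 : Nat.card φ.ker = Nat.card A' := by
    rw [h3]
    exact (Nat.card_congr (AddMonoidHom.ofInjective hi).toEquiv).symm
  rw [h1, h2, h4]

theorem EUL_row (hE2R : E2R_stmt) (hE1R : E1R_stmt) (hSBM : SBM_stmt) : EUL_stmt := by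
  intro p G _ _ _ _ hp hpro hH3 ha0 hb0 hab
  have key : ∀ n : ℕ, ∀ (A : Type) [AddCommGroup A] [DistribMulAction G A],
      Finite A → (∀ a : A, p • a = 0) → Smooth G A → Nat.card A = n →
      h1 G A ≠ 0 ∧ h2 G A ≠ 0 ∧ Nat.card A * h1 G A ≤ h0 G A * h2 G A := by
    intro n
    induction n using Nat.strong_induction_on with
    | _ n ih =>
      intro A _ _ hfin hpA hsm hcard
      rcases subsingleton_or_nontrivial A with hA | hA
      · have e1 : B1 G A = Z1 G A := by
          ext f
          have hf : f = 0 := Subsingleton.elim _ _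
          rw [hf]
          exact ⟨fun _ => (Z1 G A).zero_mem, fun _ => (B1 G A).zero_mem⟩
        have e2 : B2 G A = Z2 G A := by
          ext f
          have hf : f = 0 := Subsingleton.elim _ _
          rw [hf]
          exact ⟨fun _ => (Z2 G A).zero_mem, fun _ => (B2 G A).zero_mem⟩
        have f1 : h1 G A = 1 := by
          unfold h1
          rw [e1]
          exact AddSubgroup.relIndex_self _
        have f2 : h2 G A = 1 := by
          unfold h2
          rw [e2]
          exact AddSubgroup.relIndex_self _
        have f0 : h0 G A = 1 := by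
          unfold h0
          exact Nat.card_unique
        have fA : Nat.card A = 1 := Nat.card_unique
        rw [f1, f2, f0, fA]
        exact ⟨one_ne_zero, one_ne_zero, le_refl _⟩
      · obtain ⟨A', _, _, i, φ, hi, hφ, hig, hφg, hex⟩ := hSBM p G A hp hpro hfin hA hpA hsm
        have hfin' : Finite A' := Finite.of_injective i hi
        have hpA' : ∀ a : A', p • a = 0 := by
          intro a
          apply hi
          rw [map_nsmul, map_zero]
          exact hpA (i a)
        have hsm' : Smooth G A' := by
          intro a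
          have h5 : {g : G | g • a = a} = {g : G | g • i a = i a} := by
            ext g
            constructor
            · intro h6
              have h7 : g • a = a := h6
              show g • i a = i a
              rw [← hig, h7]
            · intro h6
              have h7 : g • i a = i a := h6
              show g • a = a
              apply hi
              rw [hig, h7]
          rw [h5]
          exact hsm (i a)
        have hc := EUL_card p A' A i φ hi hφ hex
        have hc' : 0 < Nat.card A' := Nat.card_pos
        have hlt : Nat.card A' < n := by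
          rw [← hcard, hc]
          have := hp.two_le
          nlinarith
        obtain ⟨g1, g2, g3⟩ := ih (Nat.card A') hlt A' hfin' hpA' hsm' rfl
        have hE2 := hE2R p G A' A i φ hp hH3 hfin (EUL_pow p hp A' hpA') hsm hi hφ hig hφg hex
        obtain ⟨hE1, hrs⟩ := hE1R p G A' A i φ hp hfin hsm hi hφ hig hφg hex
        have hr : Nat.card ((Z1 G A).map (φ.compLeft G)) ≠ 0 := by
          intro h8
          rw [h8, Nat.zero_mul] at hrs
          exact ha0 hrs.symm
        have hs : ((Z1 G A).map (φ.compLeft G)).relIndex (Z1 G (Fp p)) ≠ 0 := by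
          intro h8
          rw [h8, Nat.mul_zero] at hrs
          exact ha0 hrs.symm
        have k0 : 0 < h0 G A := by
          unfold h0
          exact Nat.card_pos
        have k0' : 0 < h0 G A' := by
          unfold h0
          exact Nat.card_pos
        refine ⟨?_, ?_, EUL_arith hc hE2 hE1 hrs hab (Nat.pos_of_ne_zero hs) k0' g3⟩
        · intro h8
          rw [h8, Nat.zero_mul] at hE1
          have := Nat.mul_pos (Nat.mul_pos (Nat.pos_of_ne_zero hr) (Nat.pos_of_ne_zero g1)) k0
          omega
        · intro h8
          rw [h8, Nat.zero_mul] at hE2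
          have := Nat.mul_pos (Nat.pos_of_ne_zero hb0) (Nat.pos_of_ne_zero g2)
          omega
  intro A _ _ hfin hpA hsm
  exact key (Nat.card A) A hfin hpA hsm rfl

end Pool.Agent.PP2
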